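import Pool.Agent.W477.GM.Stms

set_option maxHeartbeats 1000000

namespace Pool.Agent.W477.GM.W782Tau

open Pool.Agent.W477.GM

theorem on_holds : P_ON := by
  refine ⟨Ordinal.toPSet, fun o o' h => ?_⟩
  have h1 := PSet.rank_congr h
  rwa [Ordinal.rank_toPSet, Ordinal.rank_toPSet] at h1

/-- change the digit `n` -/
def md (n : ℕ) (l : List Bool) : List Bool := l.mapIdx fun i b => if i = n then !b else b

theorem md_length (n : ℕ) (l : List Bool) : (md n l).length = l.length := by
  rw [md, List.length_mapIdx]

theorem md_md (n : ℕ) (l : List Bool) : md n (md n l) = l := by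
  unfold md
  apply List.ext_getElem
  · simp
  · intro i h1 h2
    simp only [List.getElem_mapIdx]
    split_ifs <;> simp

theorem md_prefix (n : ℕ) {a b : List Bool} (h : a <+: b) : md n a <+: md n b := by
  obtain ⟨t, rfl⟩ := h
  unfold md
  rw [List.mapIdx_append]
  exact List.prefix_append _ _

theorem md_getD (n : ℕ) (l : List Bool) (m : ℕ) (hm : m < l.length) :
    (md n l).getD m false = if m = n then !(l.getD m false) else l.getD m false := by
  have h1 : m < (md n l).length := by rw [md_length]; exact hm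
  rw [List.getD_eq_getElem _ _ h1, List.getD_eq_getElem _ _ hm]
  unfold md
  rw [List.getElem_mapIdx]

/-- the map on conditions -/
def tf (n : ℕ) (q : QQ) : QQ where
  c := ⟨md n q.c.l⟩
  len := q.len
  bit := q.bit
  fin := q.fin
  lt := q.lt
  off := q.off
  sup j h := by
    have h1 := q.sup j h
    unfold slen at h1 ⊢
    rw [md_length]
    exact h1

theorem tf_tf (n : ℕ) (q : QQ) : tf n (tf n q) = q := by
  refine Cn.ext' ?_ (fun _ => rfl) (fun _ _ _ => rfl)
  exact Str.ext' (md_md n q.c.l)

theorem tf_le (n : ℕ) {p q : QQ} (h : p ≤ q) : tf n p ≤ tf n q :=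
  ⟨md_prefix n h.1, h.2⟩

/-- the automorphism -/
def tt (n : ℕ) : QQ ≃o QQ where
  toFun := tf n
  invFun := tf n
  left_inv := tf_tf n
  right_inv := tf_tf n
  map_rel_iff' := by
    intro p q
    constructor
    · intro h
      have h1 := tf_le n h
      change tf n (tf n p) ≤ tf n (tf n q) at h1
      rwa [tf_tf, tf_tf] at h1
    · intro h
      exact tf_le n h

theorem pj_tf (n : ℕ) (q : QQ) : pj (tf n q) = pj q :=
  Cn.ext' rfl (fun _ => rfl) (fun _ _ _ => rfl)

theorem act_lift (n : ℕ) : ∀ x : Nm PP, act (tt n) (lift x) = lift x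
  | .mk ι U x => by
    have h1 : ∀ i, act (tt n) (lift (x i)) = lift (x i) := fun i => act_lift n (x i)
    have h2 : ∀ u : QQ, pj ((tt n).symm u) = pj u := fun u => pj_tf n u
    simp only [lift, act, h1, h2]

theorem tau_holds (_ : P_ACT) : P_TAU := by
  intro n
  refine ⟨tt n, ?_, ?_, act_lift n⟩
  · intro q
    exact ⟨rfl, rfl, md_length n q.c.l, fun m hm => md_getD n q.c.l m hm⟩
  · apply OrderIso.ext
    funext q
    exact tf_tf n q

end Pool.Agent.W477.GM.W782Tau
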